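import Mathlib
import Pool.Agent.H61.CSB

set_option autoImplicit false

namespace Pool.Agent.Results.MP_be5e04_al.Heisenberg

open Pool.Agent.H61.CSDefs Pool.Agent.H61.CS
open scoped Classical Pointwise

theorem result : Countable (Heis ℤ) ∧ Group.IsNilpotent (Heis ℤ) ∧
    (¬ ∃ H : Subgroup (Heis ℤ), H.FiniteIndex ∧ ∀ a ∈ H, ∀ b ∈ H, a * b = b * a) ∧
    ∃ R₁ R₂ : Set (Ultrafilter (Heis ℤ)),
      MinClosedRightIdeal R₁ ∧ MinClosedRightIdeal R₂ ∧ R₁ ≠ R₂ := by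
  obtain ⟨B, h1, h2⟩ := exists_set
  have c1 : CS B := cs_of h2
  have c2 : CS Bᶜ := cs_of fun k => by
    obtain ⟨F, hF⟩ := h2 k
    refine ⟨F.image ((⟨1, 0, 0⟩ : Heis ℤ) * ·), fun s => ?_⟩
    obtain ⟨f, f1, f2⟩ := hF s
    exact ⟨_, Finset.mem_image_of_mem _ f1, fun i => by
      rw [mul_assoc]
      exact h1 _ (f2 i)⟩
  refine ⟨(eqv ℤ).countable_iff.2 inferInstance, ?_, ?_, ?_⟩
  · let π : Heis ℤ →* Multiplicative (ℤ × ℤ) :=
      MonoidHom.mk' (fun a => Multiplicative.ofAdd (a.x, a.y)) fun a b => rfl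
    refine Subgroup.isNilpotent_of_ker_le_center π fun a ha => Subgroup.mem_center_iff.2 fun b => ?_
    obtain ⟨e1, e2⟩ : a.x = 0 ∧ a.y = 0 := Prod.ext_iff.1 (Multiplicative.ofAdd.injective ha)
    exact Heis.ext' (add_comm _ _) (add_comm _ _) (by simp [e1, e2, add_comm])
  · rintro ⟨H, hH, h⟩
    have px : ∀ n : ℕ, (⟨1, 0, 0⟩ : Heis ℤ) ^ n = ⟨n, 0, 0⟩ := fun n => by
      induction n with
      | zero => rfl
      | succ n ih => exact Heis.ext' (by simp [pow_succ, ih]) (by simp [pow_succ, ih]) (by simp [pow_succ, ih])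
    have py : ∀ n : ℕ, (⟨0, 1, 0⟩ : Heis ℤ) ^ n = ⟨0, n, 0⟩ := fun n => by
      induction n with
      | zero => rfl
      | succ n ih => exact Heis.ext' (by simp [pow_succ, ih]) (by simp [pow_succ, ih]) (by simp [pow_succ, ih])
    obtain ⟨n, n1, -, n2⟩ := Subgroup.exists_pow_mem_of_index_ne_zero hH.index_ne_zero ⟨1, 0, 0⟩
    obtain ⟨m, m1, -, m2⟩ := Subgroup.exists_pow_mem_of_index_ne_zero hH.index_ne_zero ⟨0, 1, 0⟩
    have := congrArg Heis.z (h _ n2 _ m2)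
    simp [px, py] at this
    omega
  · obtain ⟨R₁, a1, a2⟩ := exists_min c1
    obtain ⟨R₂, b1, b2⟩ := exists_min c2
    refine ⟨R₁, R₂, a1, b1, fun e => ?_⟩
    obtain ⟨p, hp⟩ := a1.2.1.1
    exact Ultrafilter.compl_mem_iff_notMem.1 (b2 p (e ▸ hp)) (a2 p hp)

end Pool.Agent.Results.MP_be5e04_al.Heisenberg
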